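import Pool.Agent.ALQ.All

/-!
# The corona theorem for the complement of `K × K`, with uniform constants
-/

open Metric Set

set_option autoImplicit false

namespace Pool.Agent.Results.MP_91698f_an.BoundedCorona

/-- The product `K × K` in the plane, where `K` is the middle-thirds Cantor set. -/
def KK : Set ℂ := {z : ℂ | z.re ∈ cantorSet ∧ z.im ∈ cantorSet}

/-- The corona theorem holds for the complement of `K × K`, with a bound of the solutions which
depends only on the number of functions and on the lower bound of the data. -/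
theorem result :
    ∀ (n : ℕ) (δ : ℝ), 0 < δ → ∃ C : ℝ, 0 < C ∧ ∀ f : Fin n → ℂ → ℂ,
      (∀ j, DifferentiableOn ℂ (f j) KKᶜ) → (∀ j, ∀ z ∈ KKᶜ, ‖f j z‖ ≤ 1) →
      (∀ z ∈ KKᶜ, ∃ j, δ ≤ ‖f j z‖) →
        ∃ g : Fin n → ℂ → ℂ, (∀ j, DifferentiableOn ℂ (g j) KKᶜ) ∧
          (∀ z ∈ KKᶜ, ∑ j, f j z * g j z = 1) ∧
          ∀ j, ∀ z ∈ KKᶜ, ‖g j z‖ ≤ C := by
  intro n δ hδ
  obtain ⟨C, hC, H⟩ := Pool.Agent.ALQ.a_BND n δ hδ
  exact ⟨C, hC, fun f h1 h2 h3 => H f ⟨h1, h2, h3⟩⟩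

end Pool.Agent.Results.MP_91698f_an.BoundedCorona
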